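import Pool.Agent.BEN.StmtsB

set_option autoImplicit false

namespace Pool.Agent.BEN.H21

open Set Filter Topology MeasureTheory
open scoped InnerProductSpace ENNReal
open Pool.Agent.BEN

theorem two_le_div (s j : ℕ) (hs : 1 ≤ s) (hj : j ≤ s) :
    (2 : ℝ≥0∞) ≤ ((2 * s : ℕ) : ℝ≥0∞) / (j : ℝ≥0∞) := by
  have h2 : ((2 * s : ℕ) : ℝ≥0∞) ≠ 0 := by
    exact_mod_cast (by omega : 2 * s ≠ 0)
  rw [ENNReal.le_div_iff_mul_le (Or.inr h2) (Or.inl (ENNReal.natCast_ne_top j))]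
  have : (2 : ℝ≥0∞) * (j : ℝ≥0∞) = ((2 * j : ℕ) : ℝ≥0∞) := by push_cast; ring
  rw [this]
  exact_mod_cast (by omega : 2 * j ≤ 2 * s)

theorem qe_eq (s j : ℕ) (hs : 1 ≤ s) (hj : j ≤ s) :
    qe s j = ((2 * s : ℕ) : ℝ≥0∞) / (j : ℝ≥0∞) := by
  unfold qe
  apply max_eq_right
  exact le_trans (by norm_num) (two_le_div s j hs hj)

theorem qe_inv (s j : ℕ) (hs : 1 ≤ s) (hj : j ≤ s) :
    (qe s j)⁻¹ = (j : ℝ≥0∞) / ((2 * s : ℕ) : ℝ≥0∞) := by
  rw [qe_eq s j hs hj]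
  have h2 : ((2 * s : ℕ) : ℝ≥0∞) ≠ 0 := by
    exact_mod_cast (by omega : 2 * s ≠ 0)
  exact ENNReal.inv_div (Or.inl (ENNReal.natCast_ne_top j)) (Or.inr h2)

/-- ROW QEF -/
theorem qef : QefStmt := by
  intro s hs
  have h2 : ((2 * s : ℕ) : ℝ≥0∞) ≠ 0 := by
    exact_mod_cast (by omega : 2 * s ≠ 0)
  refine ⟨?_, ?_, ?_, ?_, ?_, ?_⟩
  · rw [qe_eq s 0 hs (by omega)]
    simp only [Nat.cast_zero]
    exact ENNReal.div_zero h2
  · rw [qe_eq s s hs le_rfl]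
    have hs0 : (s : ℝ≥0∞) ≠ 0 := by exact_mod_cast (by omega : s ≠ 0)
    rw [show ((2 * s : ℕ) : ℝ≥0∞) = 2 * (s : ℝ≥0∞) by push_cast; ring]
    exact ENNReal.mul_div_cancel_right hs0 (ENNReal.natCast_ne_top s)
  · intro j hj
    exact ⟨by rw [qe_eq s j hs hj]; exact two_le_div s j hs hj, qe_inv s j hs hj⟩
  · intro j h1 hj
    rw [qe_eq s j hs hj]
    have hj0 : (0 : ℝ) < (j : ℝ) := by exact_mod_cast h1
    rw [ENNReal.ofReal_div_of_pos hj0, ENNReal.ofReal_natCast]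
    congr 1
    rw [show (2 * (s : ℝ)) = ((2 * s : ℕ) : ℝ) by push_cast; ring, ENNReal.ofReal_natCast]
  · intro i j hij hj
    rw [qe_eq s i hs (by omega), qe_eq s j hs hj]
    exact ENNReal.div_le_div_left (by exact_mod_cast hij) _
  · intro i j hij
    rw [qe_inv s i hs (by omega), qe_inv s j hs (by omega), qe_inv s (i + j) hs hij,
      ENNReal.div_add_div_same]
    push_cast
    rfl

end Pool.Agent.BEN.H21
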